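import Mathlib
import Pool.Agent.Y43.CH.Final

/-!
A finitely presented group that is not co-hopfian but has a co-hopfian subgroup of index two.

Let `A` be the ring of Laurent polynomials over the field with two elements with `1 + x` inverted,
`R` the semidirect product of `A` and the group of units generated by `x` and `1 + x` (Baumslag's
finitely presented metabelian group), and `W` the amalgamated product of `R` and the dihedral group
of order ten along the subgroup generated by `1` in `A`, identified with a reflection.
The group is `G = W × S_3`, and the subgroup `H` consists of the pairs `(w, s)` such that the sign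
of `s` is the parity of the exponent sum of `x` in `w`.
-/

namespace Pool.Agent.Results.MP_ce3880_al.FPExtension

/-- There is a finitely presented group `G` with an injective endomorphism that is not surjective,
and a finitely presented subgroup `H` of index two in `G`, each of whose injective endomorphisms is
surjective. -/
theorem result : ∃ (G : Type) (_ : Group G) (H : Subgroup G),
    Group.IsFinitelyPresented G ∧ Group.IsFinitelyPresented H ∧ H.index = 2 ∧
    (∀ f : H →* H, Function.Injective f → Function.Surjective f) ∧
    ∃ f : G →* G, Function.Injective f ∧ ¬ Function.Surjective f := by
  refine ⟨Pool.Agent.Y43.CH.G, inferInstance, Pool.Agent.Y43.CH.H, Pool.Agent.Y43.CH.G_fp,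
    Pool.Agent.Y43.CH.H_fp, Pool.Agent.Y43.CH.H_index, Pool.Agent.Y43.CH.H_coHopfian, ?_⟩
  have h := Pool.Agent.Y43.CH.G_not_coHopfian
  unfold Pool.Agent.Y43.CH.CoHopfian at h
  push Not at h
  exact h

end Pool.Agent.Results.MP_ce3880_al.FPExtension
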