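import Mathlib
import Pool.Agent.Y43.CH.Final

/-!
A finitely presented co-hopfian group with a subgroup of index two that is not co-hopfian.

The group is the subgroup `H` of index two in `W × S_3` of the hand-in `FPExtension`.
-/

namespace Pool.Agent.Results.MP_ce3880_al.FPSubgroup

/-- There is a finitely presented group `G`, each of whose injective endomorphisms is surjective,
and a subgroup `H` of index two in `G` with an injective endomorphism that is not surjective. -/
theorem result : ∃ (G : Type) (_ : Group G) (H : Subgroup G),
    Group.IsFinitelyPresented G ∧ H.index = 2 ∧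
    (∀ f : G →* G, Function.Injective f → Function.Surjective f) ∧
    ∃ f : H →* H, Function.Injective f ∧ ¬ Function.Surjective f := by
  refine ⟨Pool.Agent.Y43.CH.H, inferInstance, Pool.Agent.Y43.CH.H0, Pool.Agent.Y43.CH.H_fp,
    Pool.Agent.Y43.CH.H0_index, Pool.Agent.Y43.CH.H_coHopfian, ?_⟩
  have h := Pool.Agent.Y43.CH.H0_not_coHopfian
  unfold Pool.Agent.Y43.CH.CoHopfian at h
  push Not at h
  exact h

end Pool.Agent.Results.MP_ce3880_al.FPSubgroup
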